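import Pool.Agent.Y882.HS.Core

/-!
# Polynomial values at zero-one integers, and at the finite sums of any sequence, form H-sets

`IsHSet H` is the property of the problem. Let `Q` be an integer polynomial with `Q(0) = 0` which is
positive on the positive integers. Then `{Q(s) : s ∈ DD b}` is an H-set for every `b ≥ 2` (the squares
are `Q = X²`), and so is `{Q(s) : s ∈ FS a}` for every sequence `a` of positive integers, `FS a` the
set of its finite sums. Behind it is a uniform statement on several real polynomials and on finite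
sums of real numbers.
-/

set_option autoImplicit false

namespace Pool.Agent.Results.MP_19dfdc_nt.PolynomialFiniteSums

open Filter Topology Polynomial

/-- The finite sums of the sequence `a`: the numbers `∑ i ∈ S, a i`, `S` a nonempty finite set. -/
def FS (a : ℕ → ℕ) : Set ℕ := {s | ∃ S : Finset ℕ, S.Nonempty ∧ s = ∑ i ∈ S, a i}

/-- The positive integers whose base-`b` digits are all `0` or `1` (for `b ≥ 2`): the sums of
`b ^ d` over a nonempty finite set of exponents `d`. -/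
def DD (b : ℕ) : Set ℕ := {s | ∃ S : Finset ℕ, S.Nonempty ∧ s = ∑ d ∈ S, b ^ d}

/-- The distance from `x` to the nearest integer. -/
noncomputable def dist (x : ℝ) : ℝ := |x - round x|

/-- `H` is an H-set: a set of positive integers for which some `f` tending to `0` has, for all
real `γ` and all `N` such that `H` has an element `≤ N`, that some `n ∈ H` with `n ≤ N` has
`dist (n γ) ≤ f N`. -/
def IsHSet (H : Set ℕ) : Prop :=
  0 ∉ H ∧ ∃ f : ℕ → ℝ, Tendsto f atTop (𝓝 0) ∧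
    ∀ (γ : ℝ) (N : ℕ), (∃ n ∈ H, n ≤ N) → ∃ n ∈ H, n ≤ N ∧ dist (n * γ) ≤ f N

/-- The values of `Q` on the set `A`. -/
def values (Q : ℤ[X]) (A : Set ℕ) : Set ℕ := {n | ∃ s ∈ A, (n : ℤ) = Q.eval (s : ℤ)}

theorem isHSet_of (H : Set ℕ) (h0 : 0 ∉ H)
    (h : ∀ ε : ℝ, 0 < ε → ∃ M : ℕ, ∀ γ : ℝ, ∃ n ∈ H, n ≤ M ∧ dist (n * γ) ≤ ε) : IsHSet H := by
  let T : ℕ → Set ℝ := fun N => {ε | 0 ≤ ε ∧ ∀ γ : ℝ, ∃ n ∈ H, n ≤ N ∧ dist (n * γ) ≤ ε}
  have hT0 : ∀ N, 0 ≤ sInf (T N) := fun N => Real.sInf_nonneg fun x hx => hx.1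
  have hbdd : ∀ N, BddBelow (T N) := fun N => ⟨0, fun x hx => hx.1⟩
  refine ⟨h0, fun N => sInf (T N) + 1 / ((N : ℝ) + 1), ?_, ?_⟩
  · rw [Metric.tendsto_atTop]
    intro ε hε
    obtain ⟨M, hM⟩ := h (ε / 2) (by positivity)
    obtain ⟨L, hL⟩ := exists_nat_gt (2 / ε)
    refine ⟨max M L, fun N hN => ?_⟩
    have hNM : M ≤ N := (le_max_left _ _).trans hN
    have hNL : L ≤ N := (le_max_right _ _).trans hN
    have h1 : ε / 2 ∈ T N := ⟨by positivity, fun γ => by
      obtain ⟨n, hn, hn2, hn3⟩ := hM γ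
      exact ⟨n, hn, hn2.trans hNM, hn3⟩⟩
    have h2 : sInf (T N) ≤ ε / 2 := csInf_le (hbdd N) h1
    have h3 : 1 / ((N : ℝ) + 1) < ε / 2 := by
      have h4 : (L : ℝ) ≤ N := by exact_mod_cast hNL
      rw [div_lt_iff₀ hε] at hL
      rw [div_lt_div_iff₀ (by positivity) (by norm_num)]
      nlinarith
    have h5 : 0 ≤ sInf (T N) + 1 / ((N : ℝ) + 1) := by
      have := hT0 N
      positivity
    rw [Real.dist_eq, sub_zero, abs_of_nonneg h5]
    linarith
  · rintro γ N ⟨n, hn, hnN⟩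
    have hne : (T N).Nonempty := ⟨1 / 2, by norm_num, fun γ' => ⟨n, hn, hnN, abs_sub_round _⟩⟩
    obtain ⟨ε, hε, hlt⟩ := exists_lt_of_csInf_lt hne
      (show sInf (T N) < sInf (T N) + 1 / ((N : ℝ) + 1) by
        have : 0 < 1 / ((N : ℝ) + 1) := by positivity
        linarith)
    obtain ⟨k, hk, hk2, hk3⟩ := hε.2 γ
    exact ⟨k, hk, hk2, hk3.trans hlt.le⟩

theorem isHSet_values (a : ℕ → ℕ) (ha : ∀ i, 0 < a i) (Q : ℤ[X]) (hQ : Q.eval 0 = 0)
    (hpos : ∀ n : ℕ, 0 < n → 0 < Q.eval (n : ℤ)) : IsHSet (values Q (FS a)) := by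
  have hs : ∀ s ∈ FS a, 0 < s := by
    rintro s ⟨S, hS, rfl⟩
    exact Finset.sum_pos (fun i _ => ha i) hS
  apply isHSet_of
  · rintro ⟨s, hs1, hs2⟩
    have := hpos s (hs s hs1)
    rw [← hs2] at this
    simp at this
  · intro ε hε
    obtain ⟨K, hK, h⟩ := Pool.Agent.Y882.HS.st Q.natDegree 1 ε hε
    refine ⟨∑ s ∈ Finset.range (∑ i ∈ Finset.range K, a i + 1), (Q.eval (s : ℤ)).toNat,
      fun γ => ?_⟩
    obtain ⟨F, hF1, hF2, hF3⟩ := h (fun i => (a i : ℝ))
      (fun _ => C γ * Q.map (Int.castRingHom ℝ)) (fun _ => by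
        refine ⟨(natDegree_C_mul_le _ _).trans (natDegree_map_le), ?_⟩
        rw [eval_mul, eval_C]
        have h1 := eval_intCast_map (Int.castRingHom ℝ) Q 0
        rw [Int.cast_zero] at h1
        rw [h1]
        simp [hQ])
    have h3 := hF3 0
    set s : ℕ := ∑ i ∈ F, a i with hs'
    have hsF : s ∈ FS a := ⟨F, hF2, rfl⟩
    have hQs := hpos s (hs s hsF)
    have hcast : (((Q.eval (s : ℤ)).toNat : ℕ) : ℤ) = Q.eval (s : ℤ) := Int.toNat_of_nonneg hQs.le
    refine ⟨(Q.eval (s : ℤ)).toNat, ⟨s, hsF, hcast⟩, ?_, ?_⟩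
    · refine Finset.single_le_sum (f := fun s : ℕ => (Q.eval (s : ℤ)).toNat)
        (fun _ _ => Nat.zero_le _) ?_
      rw [Finset.mem_range]
      have : s ≤ ∑ i ∈ Finset.range K, a i := Finset.sum_le_sum_of_subset hF1
      omega
    · have e1 : (∑ i ∈ F, (a i : ℝ)) = ((s : ℤ) : ℝ) := by
        rw [hs']; push_cast; rfl
      rw [e1, eval_mul, eval_C, eval_intCast_map] at h3
      have e2 : (((Q.eval (s : ℤ)).toNat : ℕ) : ℝ) = (Int.castRingHom ℝ) (Q.eval (s : ℤ)) := by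
        rw [eq_intCast]
        exact_mod_cast hcast
      rw [e2, mul_comm]
      exact h3.le

/-- **Polynomial values at zero-one integers form H-sets.** (1) The answer to Q1, for every integer
polynomial `Q` with `Q(0) = 0`, positive on the positive integers, in place of `X²`. (2) The same for
the finite sums of any sequence of positive integers in place of the powers of `b`. (3) For all `d`,
`m`, `ε > 0` there is `K` such that for every sequence `a` of reals and all real polynomials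
`P 0, …, P (m-1)` of degree at most `d` without constant term there is a nonempty set `F` of indices
below `K` with `dist (P j (∑ i ∈ F, a i)) < ε` for all `j`. -/
theorem result :
    (∀ b : ℕ, 2 ≤ b → ∀ Q : ℤ[X], Q.eval 0 = 0 → (∀ n : ℕ, 0 < n → 0 < Q.eval (n : ℤ)) →
      IsHSet (values Q (DD b))) ∧
    (∀ a : ℕ → ℕ, (∀ i, 0 < a i) → ∀ Q : ℤ[X], Q.eval 0 = 0 →
      (∀ n : ℕ, 0 < n → 0 < Q.eval (n : ℤ)) → IsHSet (values Q (FS a))) ∧
    (∀ (d m : ℕ) (ε : ℝ), 0 < ε → ∃ K : ℕ, ∀ (a : ℕ → ℝ) (P : Fin m → ℝ[X]),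
      (∀ j, (P j).natDegree ≤ d ∧ (P j).eval 0 = 0) →
        ∃ F : Finset ℕ, F ⊆ Finset.range K ∧ F.Nonempty ∧
          ∀ j, dist ((P j).eval (∑ i ∈ F, a i)) < ε) := by
  refine ⟨fun b hb Q hQ hpos => ?_, isHSet_values, fun d m ε hε => ?_⟩
  · exact isHSet_values (fun d => b ^ d) (fun i => by positivity) Q hQ hpos
  · obtain ⟨K, -, h⟩ := Pool.Agent.Y882.HS.st d m ε hε
    exact ⟨K, h⟩

end Pool.Agent.Results.MP_19dfdc_nt.PolynomialFiniteSums
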